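import Pool.Agent.H38.RB.Targets
import Pool.Agent.H27.UE.AuxPoly

/-!
# COEF: the coefficients of `tw x P`
-/

set_option autoImplicit false

open MvPolynomial Pool.Agent.H21.UE

namespace Pool.Agent.H38.RB

/-- the substituted linear forms in the coordinates `v` -/
private noncomputable def cy {m : ℕ} (x : Fin m → Fin 3 → ℤ) (v : Fin 2) (q : Fin m × Fin 2) :
    MvPolynomial (Fin m × Fin 2) ℤ :=
  if q.2 = 0 then X (q.1, 0) + C (sg v (x q.1)) * X (q.1, 1) else C (x q.1 1) * X (q.1, 1)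

private theorem cy_eq {m : ℕ} (x : Fin m → Fin 3 → ℤ) (v : Fin 2) (q : Fin m × Fin 2) :
    aeval (cy x v) (∑ j, C (A v q.2 j) * X (q.1, j) : MvPolynomial (Fin m × Fin 2) ℤ) =
      if q.2 = 0 then X (q.1, 0) + C (x q.1 0) * X (q.1, 1) else C (x q.1 1) * X (q.1, 1) := by
  obtain ⟨h, i⟩ := q
  rw [map_sum, Fin.sum_univ_two, map_mul, map_mul, aeval_C, aeval_C, aeval_X, aeval_X]
  rw [← C_eq_algebraMap]
  fin_cases v <;> fin_cases i <;> simp [A, cy, sg] <;> ring

private theorem tw_eq {m : ℕ} (x : Fin m → Fin 3 → ℤ) (v : Fin 2)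
    (P : MvPolynomial (Fin m × Fin 2) ℤ) : tw x P = aeval (cy x v) (subst (A v) P) := by
  rw [subst, ← AlgHom.comp_apply, comp_aeval, tw]
  congr 2
  funext q
  exact (cy_eq x v q).symm

private theorem tw_homog {m : ℕ} (x : Fin m → Fin 3 → ℤ) (r : Fin m → ℕ)
    (P : MvPolynomial (Fin m × Fin 2) ℤ) (hP : ∀ J ∈ P.support, ∀ h, ∑ i, J (h, i) = r h) :
    ∀ k : Fin m × Fin 2 →₀ ℕ, (tw x P).coeff k ≠ 0 → ∀ h, ∑ i, k (h, i) = r h := by
  have key : IsWeightedHomogeneous (axW m (Fin 2)) (tw x P) r := by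
    rw [tw, aeval_def, eval₂_eq']
    refine IsWeightedHomogeneous.sum _ _ _ fun J hJ => ?_
    rw [← C_eq_algebraMap]
    refine IsWeightedHomogeneous.C_mul ?_ _
    have h1 : r = ∑ q, J q • axW m (Fin 2) q := by
      funext h
      have := axW_weight J h
      rw [Finsupp.weight_apply, Finsupp.sum_fintype _ _ (by intro q; simp)] at this
      rw [this, hP J hJ h]
    rw [h1]
    refine IsWeightedHomogeneous.prod _ _ _ fun q _ => ?_
    refine IsWeightedHomogeneous.pow ?_ _
    have hX : ∀ j : Fin 2, IsWeightedHomogeneous (axW m (Fin 2))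
        (X (q.1, j) : MvPolynomial (Fin m × Fin 2) ℤ) (axW m (Fin 2) q) :=
      fun j => isWeightedHomogeneous_X ℤ (axW m (Fin 2)) (q.1, j)
    split_ifs
    · exact (hX 0).add ((hX 1).C_mul _)
    · exact (hX 1).C_mul _
  intro k hk h
  have h3 := congrFun (key hk) h
  rw [axW_weight] at h3
  exact h3

private theorem prod_mono {m : ℕ} (e : Fin m → (Fin m × Fin 2 →₀ ℕ)) (c : Fin m → ℤ) :
    ∏ h, (monomial (e h) (c h) : MvPolynomial (Fin m × Fin 2) ℤ) =
      monomial (∑ h, e h) (∏ h, c h) := by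
  rw [monomial_sum_index, map_prod, ← Finset.prod_mul_distrib]
  refine Finset.prod_congr rfl fun h _ => ?_
  rw [C_mul_monomial, mul_one]

private theorem block_expand {m : ℕ} (h : Fin m) (s t : ℤ) (a b : ℕ) :
    (X (h, 0) + C s * X (h, 1) : MvPolynomial (Fin m × Fin 2) ℤ) ^ a * (C t * X (h, 1)) ^ b =
      ∑ i ∈ Finset.range (a + 1),
        monomial (Finsupp.single (h, (0 : Fin 2)) i + Finsupp.single (h, (1 : Fin 2)) (a - i + b))
          ((a.choose i : ℤ) * s ^ (a - i) * t ^ b) := by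
  rw [add_pow, Finset.sum_mul]
  refine Finset.sum_congr rfl fun i _ => ?_
  have h1 : (monomial (Finsupp.single (h, (0 : Fin 2)) i +
      Finsupp.single (h, (1 : Fin 2)) (a - i + b)) ((a.choose i : ℤ) * s ^ (a - i) * t ^ b) :
      MvPolynomial (Fin m × Fin 2) ℤ) =
      C ((a.choose i : ℤ) * s ^ (a - i) * t ^ b) * (X (h, 0) ^ i * X (h, 1) ^ (a - i + b)) := by
    rw [X_pow_eq_monomial, X_pow_eq_monomial, monomial_mul, one_mul, C_mul_monomial, mul_one]
  rw [h1, mul_pow, mul_pow, map_mul, map_mul, map_pow, map_pow, pow_add]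
  have h2 : (C ((a.choose i : ℕ) : ℤ) : MvPolynomial (Fin m × Fin 2) ℤ) = ((a.choose i : ℕ)) := by
    simp
  rw [h2]
  ring

private theorem coeff_block {m : ℕ} (x : Fin m → Fin 3 → ℤ) (v : Fin 2)
    (J k : Fin m × Fin 2 →₀ ℕ) (hJk : ∀ h, ∑ i, J (h, i) = ∑ i, k (h, i)) :
    (∏ q, cy x v q ^ J q).coeff k = ∏ h, (((J (h, 0)).choose (k (h, 0)) : ℤ) *
      sg v (x h) ^ (J (h, 0) - k (h, 0)) * x h 1 ^ J (h, 1)) := by
  classical
  have h1 : ∏ q, cy x v q ^ J q = ∏ h : Fin m, ∑ i ∈ Finset.range (J (h, 0) + 1),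
      (monomial (Finsupp.single (h, (0 : Fin 2)) i +
        Finsupp.single (h, (1 : Fin 2)) (J (h, 0) - i + J (h, 1)))
        (((J (h, 0)).choose i : ℤ) * sg v (x h) ^ (J (h, 0) - i) * x h 1 ^ J (h, 1)) :
        MvPolynomial (Fin m × Fin 2) ℤ) := by
    rw [Fintype.prod_prod_type]
    refine Finset.prod_congr rfl fun h _ => ?_
    rw [Fin.prod_univ_two, ← block_expand]
    simp [cy]
  rw [h1, Finset.prod_univ_sum, coeff_sum]
  have h2 : ∀ p : Fin m → ℕ, (∏ h : Fin m, (monomial (Finsupp.single (h, (0 : Fin 2)) (p h) +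
        Finsupp.single (h, (1 : Fin 2)) (J (h, 0) - p h + J (h, 1)))
        (((J (h, 0)).choose (p h) : ℤ) * sg v (x h) ^ (J (h, 0) - p h) * x h 1 ^ J (h, 1)) :
        MvPolynomial (Fin m × Fin 2) ℤ)).coeff k =
      if (∑ h : Fin m, (Finsupp.single (h, (0 : Fin 2)) (p h) +
        Finsupp.single (h, (1 : Fin 2)) (J (h, 0) - p h + J (h, 1)))) = k then
        ∏ h, (((J (h, 0)).choose (p h) : ℤ) * sg v (x h) ^ (J (h, 0) - p h) * x h 1 ^ J (h, 1))
      else 0 := by
    intro p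
    rw [prod_mono, coeff_monomial]
  have hev : ∀ (p : Fin m → ℕ) (w : Fin m → ℕ) (h : Fin m),
      (∑ h : Fin m, (Finsupp.single (h, (0 : Fin 2)) (p h) +
        Finsupp.single (h, (1 : Fin 2)) (w h))) (h, 0) = p h ∧
      (∑ h : Fin m, (Finsupp.single (h, (0 : Fin 2)) (p h) +
        Finsupp.single (h, (1 : Fin 2)) (w h))) (h, 1) = w h := by
    intro p w h
    constructor
    · rw [Finsupp.finsetSum_apply, Finset.sum_eq_single h]
      · simp
      · intro b _ hb
        simp [hb]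
      · intro hh; exact absurd (Finset.mem_univ _) hh
    · rw [Finsupp.finsetSum_apply, Finset.sum_eq_single h]
      · simp
      · intro b _ hb
        simp [hb]
      · intro hh; exact absurd (Finset.mem_univ _) hh
  rw [Finset.sum_congr rfl fun p _ => h2 p]
  rw [Finset.sum_eq_single (fun h => k (h, 0))]
  · by_cases hle : ∀ h, k (h, 0) ≤ J (h, 0)
    · rw [if_pos]
      ext q
      obtain ⟨h, i⟩ := q
      have h3 := hev (fun h => k (h, 0)) (fun h => J (h, 0) - k (h, 0) + J (h, 1)) h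
      have h4 := hJk h
      rw [Fin.sum_univ_two, Fin.sum_univ_two] at h4
      have h5 := hle h
      fin_cases i
      · exact h3.1
      · refine h3.2.trans ?_
        show J (h, 0) - k (h, 0) + J (h, 1) = k (h, 1)
        omega
    · push Not at hle
      obtain ⟨h, hh⟩ := hle
      have h6 : ∏ h, (((J (h, 0)).choose (k (h, 0)) : ℤ) *
          sg v (x h) ^ (J (h, 0) - k (h, 0)) * x h 1 ^ J (h, 1)) = 0 := by
        refine Finset.prod_eq_zero (Finset.mem_univ h) ?_
        rw [Nat.choose_eq_zero_of_lt hh]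
        simp
      rw [h6, ite_self]
  · intro p _ hp
    rw [if_neg]
    intro he
    apply hp
    funext h
    rw [← he]
    exact ((hev p (fun h => J (h, 0) - p h + J (h, 1)) h).1).symm
  · intro hk
    rw [Fintype.mem_piFinset] at hk
    push Not at hk
    obtain ⟨h, hh⟩ := hk
    have h6 : ∏ h, (((J (h, 0)).choose (k (h, 0)) : ℤ) *
        sg v (x h) ^ (J (h, 0) - k (h, 0)) * x h 1 ^ J (h, 1)) = 0 := by
      refine Finset.prod_eq_zero (Finset.mem_univ h) ?_
      rw [Nat.choose_eq_zero_of_lt (by simpa using hh)]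
      simp
    rw [h6, ite_self]

theorem COEF : T_COEF := by
  intro m x r P hP k hk
  have hkr := tw_homog x r P hP k hk
  refine ⟨hkr, fun v => ?_⟩
  have hQ := subst_homog (A v) P r hP
  rw [tw_eq x v P, aeval_def, eval₂_eq', coeff_sum]
  refine Finset.sum_congr rfl fun J hJ => ?_
  rw [← C_eq_algebraMap, coeff_C_mul, coeff_block x v J k]
  intro h
  rw [hQ J hJ h, hkr h]

end Pool.Agent.H38.RB
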